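import Mathlib.ModelTheory.Semantics
import Mathlib.Data.Nat.Bits
import Mathlib.Data.Fintype.EquivFin
import Mathlib.Data.Finite.Sum
import Mathlib.Data.Finite.Sigma
import Mathlib.Data.Finite.Prod
import Mathlib.Data.Fintype.Option
import Mathlib.Data.Fintype.Sum
import Mathlib.Data.Fintype.Sigma
import Mathlib.Data.Fintype.Prod
import Mathlib.Algebra.BigOperators.Fin
import Mathlib.Algebra.Order.BigOperators.Group.Finset
import Mathlib.Tactic.Linarith
import Mathlib.Tactic.Ring
import Mathlib.Data.Nat.Digits.Lemmas
import Mathlib.SetTheory.Cardinal.Finite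
import Mathlib.SetTheory.Cardinal.NatCard

set_option autoImplicit false

/-!
# Hybrid binder logic over a finite set of Boolean functions: definitions

Formulas, Kripke semantics, clones, circuits, and the presentations of a formula as a labelled tree
and as a word.
-/

namespace Pool.Agent.K7.H42.HL

open FirstOrder

universe u

/-- A finite set `B` of Boolean functions. -/
structure Base where
  ι : Type
  [fin : Finite ι]
  ar : ι → ℕ
  fn : (i : ι) → (Fin (ar i) → Bool) → Bool

attribute [instance] Base.fin

/-- The clone generated by `B`. -/
inductive Clone (B : Base) : (n : ℕ) → ((Fin n → Bool) → Bool) → Prop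
  | proj {n : ℕ} (j : Fin n) : Clone B n (fun x => x j)
  | comp {n : ℕ} (i : B.ι) (g : Fin (B.ar i) → (Fin n → Bool) → Bool)
      (h : ∀ j, Clone B n (g j)) : Clone B n (fun x => B.fn i (fun j => g j x))

/-- Names for the disjunction and the constants. -/
inductive OrSym : Type
  | or : OrSym
  | zero : OrSym
  | one : OrSym

instance : Finite OrSym :=
  Finite.of_surjective (fun i : Fin 3 => match i with
    | 0 => OrSym.or
    | 1 => OrSym.zero
    | 2 => OrSym.one) (fun s => by
      cases s
      · exact ⟨0, rfl⟩
      · exact ⟨1, rfl⟩
      · exact ⟨2, rfl⟩)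

/-- The base consisting of the binary disjunction and the constants `0` and `1`. -/
def orBase : Base where
  ι := OrSym
  ar := fun s => match s with
    | .or => 2
    | .zero => 0
    | .one => 0
  fn := fun s => match s with
    | .or => fun x => x 0 || x 1
    | .zero => fun _ => false
    | .one => fun _ => true

/-- `[B] = V`, where `V` is the clone generated by the disjunction and the constants. -/
def GeneratesV (B : Base) : Prop :=
  ∀ n : ℕ, 0 < n → ∀ f, Clone B n f ↔ Clone orBase n f

/-- The `k`-th argument of `f` is essential. -/
def Essential {n : ℕ} (f : (Fin n → Bool) → Bool) (k : Fin n) : Prop :=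
  ∃ x y : Fin n → Bool, (∀ j, j ≠ k → x j = y j) ∧ f x ≠ f y

/-- The formulas. -/
inductive Fml (B : Base) : Type
  | atom (n : ℕ) : Fml B
  | nom (n : ℕ) : Fml B
  | var (n : ℕ) : Fml B
  | app (i : B.ι) (a : Fin (B.ar i) → Fml B) : Fml B
  | dia (φ : Fml B) : Fml B
  | box (φ : Fml B) : Fml B
  | down (x : ℕ) (φ : Fml B) : Fml B

/-- Kripke models; `N n` is the state at which the nominal `n` is true. -/
structure Model where
  W : Type u
  R : W → W → Prop
  V : ℕ → W → Prop
  N : ℕ → W

open Classical in
/-- Truth of a formula at the state `w` under the assignment `g`. -/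
def Sat {B : Base} (M : Model.{u}) : (ℕ → M.W) → M.W → Fml B → Prop
  | _, w, .atom n => M.V n w
  | _, w, .nom n => w = M.N n
  | g, w, .var n => w = g n
  | g, w, .app i a => B.fn i (fun j => decide (Sat M g w (a j))) = true
  | g, w, .dia φ => ∃ v, M.R w v ∧ Sat M g v φ
  | g, w, .box φ => ∀ v, M.R w v → Sat M g v φ
  | g, w, .down x φ => Sat M (Function.update g x w) w φ

/-- Satisfiability over the frames in `F`. -/
def Satisfiable {B : Base} (F : (W : Type u) → (W → W → Prop) → Prop) (φ : Fml B) : Prop :=
  ∃ M : Model.{u}, F M.W M.R ∧ ∃ (g : ℕ → M.W) (w : M.W), Sat M g w φ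

/-- All frames. -/
def AllFrames (W : Type u) (_ : W → W → Prop) : Prop := True

/-- The transitive frames. -/
def TransFrames (W : Type u) (R : W → W → Prop) : Prop :=
  ∀ x y z : W, R x y → R y z → R x z

/-- The value: atoms, nominals, variables and boxed subformulas are replaced by `1`, diamonds and
binders are deleted. -/
def val {B : Base} : Fml B → Bool
  | .atom _ => true
  | .nom _ => true
  | .var _ => true
  | .app i a => B.fn i (fun j => val (a j))
  | .dia φ => val φ
  | .box _ => true
  | .down _ φ => val φ

/-! ### Circuits -/

/-- Circuits of unbounded fan-in with inputs `I`; `lit i b` is the input `i` or its negation,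
`all` and `any` are conjunction and disjunction. -/
inductive Circuit (I : Type) : Type
  | lit (i : I) (b : Bool) : Circuit I
  | all (k : ℕ) (c : Fin k → Circuit I) : Circuit I
  | any (k : ℕ) (c : Fin k → Circuit I) : Circuit I

/-- The value of a circuit. -/
def Circuit.eval {I : Type} (x : I → Prop) : Circuit I → Prop
  | .lit i b => if b then x i else ¬ x i
  | .all _ c => ∀ j, (c j).eval x
  | .any _ c => ∃ j, (c j).eval x

/-- The depth of a circuit. -/
def Circuit.depth {I : Type} : Circuit I → ℕ
  | .lit _ _ => 0
  | .all _ c => 1 + Finset.univ.sup (fun j => (c j).depth)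
  | .any _ c => 1 + Finset.univ.sup (fun j => (c j).depth)

/-- The size of a circuit. -/
def Circuit.size {I : Type} : Circuit I → ℕ
  | .lit _ _ => 1
  | .all _ c => 1 + ∑ j, (c j).size
  | .any _ c => 1 + ∑ j, (c j).size

/-- The circuits `C n` have constant depth and polynomial size. -/
def ConstDepthPolySize {I : ℕ → Type} (C : (n : ℕ) → Circuit (I n)) : Prop :=
  ∃ d c : ℕ, ∀ n, (C n).depth ≤ d ∧ (C n).size ≤ c * (n + 1) ^ c

/-! ### Formulas as labelled trees -/

/-- The labels of the nodes. -/
inductive Lab (B : Base) : Type
  | at : Lab B
  | nm : Lab B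
  | vr : Lab B
  | fn (i : B.ι) : Lab B
  | dia : Lab B
  | box : Lab B
  | dn : Lab B

/-- The subformula at the address `p`. -/
def subAt {B : Base} : Fml B → List ℕ → Option (Fml B)
  | φ, [] => some φ
  | .app i a, k :: p => if h : k < B.ar i then subAt (a ⟨k, h⟩) p else none
  | .dia φ, k :: p => if k = 0 then subAt φ p else none
  | .box φ, k :: p => if k = 0 then subAt φ p else none
  | .down _ φ, k :: p => if k = 0 then subAt φ p else none
  | .atom _, _ :: _ => none
  | .nom _, _ :: _ => none
  | .var _, _ :: _ => none

/-- The top symbol of a formula. -/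
def top {B : Base} : Fml B → Lab B
  | .atom _ => .at
  | .nom _ => .nm
  | .var _ => .vr
  | .app i _ => .fn i
  | .dia _ => .dia
  | .box _ => .box
  | .down _ _ => .dn

/-- The index of the atom, nominal or variable at the top of a formula. -/
def topIndex {B : Base} : Fml B → ℕ
  | .atom n => n
  | .nom n => n
  | .var n => n
  | .down n _ => n
  | _ => 0

/-- The nodes of a formula. -/
def Occ {B : Base} (φ : Fml B) : Type := {p : List ℕ // (subAt φ p).isSome}

/-- The label of a node. -/
def label {B : Base} {φ : Fml B} (v : Occ φ) : Lab B := top ((subAt φ v.1).get v.2)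

/-- The index of a node. -/
def index {B : Base} {φ : Fml B} (v : Occ φ) : ℕ := topIndex ((subAt φ v.1).get v.2)

/-- The node `v` lies in the `k`-th immediate subformula of the node `u`. -/
def Below {B : Base} {φ : Fml B} (k : ℕ) (u v : Occ φ) : Prop := u.1 ++ [k] <+: v.1

/-- The relation symbols for labelled trees: labels, binary digits of the index, and `Below k`. -/
inductive TreeRel (B : Base) : ℕ → Type
  | lab (a : Lab B) : TreeRel B 1
  | bit (b : ℕ) : TreeRel B 1
  | below (k : ℕ) : TreeRel B 2

/-- The language of labelled trees. -/
def treeLang (B : Base) : Language where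
  Functions := fun _ => Empty
  Relations := TreeRel B

/-- The formula `φ` as a structure. -/
instance treeStructure {B : Base} (φ : Fml B) : (treeLang B).Structure (Occ φ) where
  funMap := fun f => nomatch f
  RelMap := fun {_} r => match r with
    | .lab a => fun x => label (x 0) = a
    | .bit b => fun x => (index (x 0)).testBit b = true
    | .below k => fun x => Below k (x 0) (x 1)

/-- The input gates for formulas with `m` nodes, presented as labelled trees. -/
inductive TreeIn (B : Base) (m : ℕ) : Type
  | lab (v : Fin m) (a : Lab B) : TreeIn B m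
  | bit (v : Fin m) (b : ℕ) : TreeIn B m
  | below (k : ℕ) (u v : Fin m) : TreeIn B m

/-- The input which presents the formula `φ`, its nodes being numbered by `e`. -/
def treeInput {B : Base} {φ : Fml B} {m : ℕ} (e : Occ φ ≃ Fin m) : TreeIn B m → Prop
  | .lab v a => label (e.symm v) = a
  | .bit v b => (index (e.symm v)).testBit b = true
  | .below k u v => Below k (e.symm u) (e.symm v)

/-! ### Formulas as words -/

/-- The letters of the words. -/
inductive Tok (B : Base) : Type
  | lab (a : Lab B) : Tok B
  | bit (b : Bool) : Tok B

/-- The binary representation of an index. -/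
def bits (B : Base) (n : ℕ) : List (Tok B) := n.bits.map Tok.bit

/-- The word of a formula: Polish notation, the indices being written in binary. -/
def word {B : Base} : Fml B → List (Tok B)
  | .atom n => .lab .at :: bits B n
  | .nom n => .lab .nm :: bits B n
  | .var n => .lab .vr :: bits B n
  | .app i a => .lab (.fn i) :: (List.ofFn (fun j => word (a j))).flatten
  | .dia φ => .lab .dia :: word φ
  | .box φ => .lab .box :: word φ
  | .down x φ => .lab .dn :: (bits B x ++ word φ)

/-- The relation symbols for words: letters and the order of the positions. -/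
inductive WordRel (B : Base) : ℕ → Type
  | letter (a : Tok B) : WordRel B 1
  | less : WordRel B 2

/-- The language of words. -/
def wordLang (B : Base) : Language where
  Functions := fun _ => Empty
  Relations := WordRel B

/-- The positions of a word. -/
def Pos {B : Base} (w : List (Tok B)) : Type := Fin w.length

/-- A word as a structure. -/
instance wordStructure {B : Base} (w : List (Tok B)) : (wordLang B).Structure (Pos w) where
  funMap := fun f => nomatch f
  RelMap := fun {_} r => match r with
    | .letter a => fun x => w.get (x 0) = a
    | .less => fun x => (x 0).1 < (x 1).1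

end Pool.Agent.K7.H42.HL
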