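import Pool.Agent.K7.H42.HL.Defs

set_option autoImplicit false

/-!
# Hybrid binder logic over disjunctive bases: proofs
-/

namespace Pool.Agent.K7.H42.HL

open FirstOrder

universe u

/-! ### Functions in the clone `V` -/

/-- the function with exactly the argument `k` equal to `1` -/
def single {n : ℕ} (k : Fin n) : Fin n → Bool := fun j => decide (j = k)

/-- `f` is constant or the disjunction of some of its arguments -/
def Disj {n : ℕ} (f : (Fin n → Bool) → Bool) : Prop :=
  ∀ x, f x = true ↔ (f (fun _ => false) = true ∨ ∃ j, x j = true ∧ f (single j) = true)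

theorem disj_of_clone {n : ℕ} {f : (Fin n → Bool) → Bool} (h : Clone orBase n f) : Disj f := by
  induction h with
  | proj j =>
    intro x
    simp [single]
  | @comp i g _ ih =>
    intro x
    match i, g, ih with
    | .zero, g, ih => simp [orBase]
    | .one, g, ih => simp [orBase]
    | .or, g, ih =>
      change (g (0 : Fin 2) x || g (1 : Fin 2) x) = true ↔
        ((g (0 : Fin 2) (fun _ => false) || g (1 : Fin 2) (fun _ => false)) = true ∨
        ∃ j, x j = true ∧ (g (0 : Fin 2) (single j) || g (1 : Fin 2) (single j)) = true)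
      have h0 := ih (0 : Fin 2) x
      have h1 := ih (1 : Fin 2) x
      simp only [Bool.or_eq_true]
      constructor
      · rintro (h | h)
        · rcases h0.1 h with h2 | ⟨k, h2, h3⟩
          · exact Or.inl (Or.inl h2)
          · exact Or.inr ⟨k, h2, Or.inl h3⟩
        · rcases h1.1 h with h2 | ⟨k, h2, h3⟩
          · exact Or.inl (Or.inr h2)
          · exact Or.inr ⟨k, h2, Or.inr h3⟩
      · rintro ((h | h) | ⟨k, h2, h3 | h3⟩)
        · exact Or.inl (h0.2 (Or.inl h))
        · exact Or.inr (h1.2 (Or.inl h))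
        · exact Or.inl (h0.2 (Or.inr ⟨k, h2, h3⟩))
        · exact Or.inr (h1.2 (Or.inr ⟨k, h2, h3⟩))

theorem disj_fn {B : Base} (hB : GeneratesV B) (i : B.ι) : Disj (B.fn i) := by
  rcases Nat.eq_zero_or_pos (B.ar i) with h0 | hpos
  · intro x
    have hx : x = fun _ => false := by
      funext j
      exact absurd j.2 (by omega)
    subst hx
    constructor
    · exact Or.inl
    · rintro (h | ⟨j, h, -⟩)
      · exact h
      · exact absurd h (by simp)
  · refine disj_of_clone ((hB _ hpos _).1 ?_)
    exact Clone.comp i (fun j x => x j) (fun j => Clone.proj j)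

theorem Disj.mono {n : ℕ} {f : (Fin n → Bool) → Bool} (hf : Disj f) {x y : Fin n → Bool}
    (h : ∀ j, x j = true → y j = true) (hx : f x = true) : f y = true := by
  rcases (hf x).1 hx with h1 | ⟨j, h1, h2⟩
  · exact (hf y).2 (Or.inl h1)
  · exact (hf y).2 (Or.inr ⟨j, h j h1, h2⟩)

theorem Disj.single {n : ℕ} {f : (Fin n → Bool) → Bool} (hf : Disj f) {k : Fin n}
    (h : Essential f k) : f (single k) = true := by
  obtain ⟨x, y, hxy, hne⟩ := h
  have key : ∀ x y : Fin n → Bool, (∀ j, j ≠ k → x j = y j) → f x = true → f y = false →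
      f (HL.single k) = true := by
    intro x y hxy hx hy
    rcases (hf x).1 hx with h1 | ⟨j, h1, h2⟩
    · rw [(hf y).2 (Or.inl h1)] at hy
      exact absurd hy (by simp)
    · by_cases hj : j = k
      · rw [← hj]; exact h2
      · rw [(hf y).2 (Or.inr ⟨j, (hxy j hj) ▸ h1, h2⟩)] at hy
        exact absurd hy (by simp)
  cases hx : f x <;> cases hy : f y
  · exact absurd (hx.trans hy.symm) hne
  · exact key y x (fun j hj => (hxy j hj).symm) hy hx
  · exact key x y hxy hx hy
  · exact absurd (hx.trans hy.symm) hne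

/-! ### The value decides satisfiability -/

theorem val_of_sat {B : Base} (hB : ∀ i, Disj (B.fn i)) (M : Model.{u}) (φ : Fml B) :
    ∀ g w, Sat M g w φ → val φ = true := by
  classical
  induction φ with
  | atom n => intro _ _ _; rfl
  | nom n => intro _ _ _; rfl
  | var n => intro _ _ _; rfl
  | app i a ih =>
    intro g w h
    rw [Sat] at h
    refine (hB i).mono (fun j hj => ?_) h
    exact ih j g w (of_decide_eq_true hj)
  | dia φ ih =>
    rintro g w ⟨v, -, h⟩
    exact ih g v h
  | box φ ih => intro _ _ _; rfl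
  | down x φ ih =>
    intro g w h
    exact ih _ w h

/-- the reflexive point -/
def onePoint : Model.{u} := ⟨PUnit, fun _ _ => True, fun _ _ => True, fun _ => PUnit.unit⟩

/-- the chain with last point `D` -/
def chain (D : ℕ) : Model.{u} :=
  ⟨ULift ℕ, fun a b => a.down < b.down ∧ b.down ≤ D, fun _ _ => True, fun _ => ⟨0⟩⟩

theorem sat_of_val {B : Base} (hB : ∀ i, Disj (B.fn i)) (φ : Fml B) :
    val φ = true → (∀ g w, Sat onePoint.{u} g w φ) ∨
      ∃ d, ∀ D, d ≤ D → ∀ g, Sat (chain.{u} D) g ⟨D - d⟩ φ := by
  classical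
  induction φ with
  | atom n => intro _; exact Or.inl fun _ _ => trivial
  | nom n => intro _; exact Or.inl fun _ _ => rfl
  | var n => intro _; exact Or.inl fun _ _ => rfl
  | app i a ih =>
    intro h
    rw [val] at h
    rcases (hB i _).1 h with h1 | ⟨j, h1, h2⟩
    · exact Or.inl fun g w => by
        rw [Sat]
        exact (hB i _).2 (Or.inl h1)
    · rcases ih j h1 with h3 | ⟨d, h3⟩
      · left
        intro g w
        rw [Sat]
        exact (hB i _).2 (Or.inr ⟨j, decide_eq_true (h3 g w), h2⟩)
      · right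
        refine ⟨d, fun D hD g => ?_⟩
        rw [Sat]
        exact (hB i _).2 (Or.inr ⟨j, decide_eq_true (h3 D hD g), h2⟩)
  | dia φ ih =>
    intro h
    rcases ih h with h1 | ⟨d, h1⟩
    · left
      intro g w
      exact ⟨PUnit.unit, trivial, h1 g _⟩
    · right
      refine ⟨d + 1, fun D hD g => ⟨⟨D - d⟩, ⟨?_, ?_⟩, h1 D (by omega) g⟩⟩
      · change D - (d + 1) < D - d
        omega
      · change D - d ≤ D
        omega
  | box φ ih =>
    intro _
    right
    refine ⟨0, fun D _ g v hv => ?_⟩
    have h1 : D - 0 < v.down := hv.1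
    have h2 : v.down ≤ D := hv.2
    omega
  | down x φ ih =>
    intro h
    rcases ih h with h1 | ⟨d, h1⟩
    · left
      intro g w
      exact h1 _ w
    · right
      exact ⟨d, fun D hD g => h1 D hD _⟩

theorem satisfiable_iff {B : Base} (hB : ∀ i, Disj (B.fn i))
    {F : (W : Type u) → (W → W → Prop) → Prop} (h1 : F onePoint.W onePoint.R)
    (h2 : ∀ D, F (chain D).W (chain D).R) (φ : Fml B) : Satisfiable F φ ↔ val φ = true := by
  constructor
  · rintro ⟨M, -, g, w, h⟩
    exact val_of_sat hB M φ g w h
  · intro h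
    rcases sat_of_val hB φ h with h3 | ⟨d, h3⟩
    · exact ⟨onePoint, h1, fun _ => PUnit.unit, PUnit.unit, h3 _ _⟩
    · exact ⟨chain d, h2 d, fun _ => ⟨0⟩, ⟨d - d⟩, h3 d le_rfl _⟩

theorem satisfiable_all {B : Base} (hB : ∀ i, Disj (B.fn i)) (φ : Fml B) :
    Satisfiable AllFrames.{u} φ ↔ val φ = true :=
  satisfiable_iff hB trivial (fun _ => trivial) φ

theorem satisfiable_trans {B : Base} (hB : ∀ i, Disj (B.fn i)) (φ : Fml B) :
    Satisfiable TransFrames.{u} φ ↔ val φ = true := by
  refine satisfiable_iff hB (fun _ _ _ _ _ => trivial) (fun D x y z h1 h2 => ?_) φ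
  exact ⟨h1.1.trans h2.1, h2.2⟩

/-! ### Trees -/

instance {B : Base} : Finite (Lab B) :=
  Finite.of_surjective (fun x : B.ι ⊕ Fin 6 => match x with
    | .inl i => Lab.fn i
    | .inr 0 => Lab.at
    | .inr 1 => Lab.nm
    | .inr 2 => Lab.vr
    | .inr 3 => Lab.dia
    | .inr 4 => Lab.box
    | .inr 5 => Lab.dn) (fun a => by
      cases a
      · exact ⟨.inr 0, rfl⟩
      · exact ⟨.inr 1, rfl⟩
      · exact ⟨.inr 2, rfl⟩
      · exact ⟨.inl _, rfl⟩
      · exact ⟨.inr 3, rfl⟩
      · exact ⟨.inr 4, rfl⟩
      · exact ⟨.inr 5, rfl⟩)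

/-- the labels which are replaced by `1` -/
def PosLab {B : Base} : Lab B → Prop
  | .at => True
  | .nm => True
  | .vr => True
  | .fn i => B.fn i (fun _ => false) = true
  | .dia => False
  | .box => True
  | .dn => False

/-- the address `p` makes the value of `φ` equal to `1` -/
def Good {B : Base} (φ : Fml B) (p : List ℕ) : Prop :=
  (∃ ψ, subAt φ p = some ψ ∧ PosLab (top ψ)) ∧
  ∀ q χ, subAt φ q = some χ → ∀ i (k : Fin (B.ar i)), top χ = .fn i → q ++ [k.1] <+: p →
    B.fn i (single k) = true

theorem good_nil {B : Base} {φ : Fml B} (h : PosLab (top φ)) : Good φ [] := by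
  refine ⟨⟨φ, by cases φ <;> rfl, h⟩, ?_⟩
  intro q χ _ i k _ hq
  exact absurd (List.prefix_nil.1 hq) (by simp)

theorem good_iff {B : Base} (hB : ∀ i, Disj (B.fn i)) (φ : Fml B) :
    val φ = true ↔ ∃ p, Good φ p := by
  induction φ with
  | atom n => exact ⟨fun _ => ⟨[], good_nil trivial⟩, fun _ => rfl⟩
  | nom n => exact ⟨fun _ => ⟨[], good_nil trivial⟩, fun _ => rfl⟩
  | var n => exact ⟨fun _ => ⟨[], good_nil trivial⟩, fun _ => rfl⟩
  | box φ ih => exact ⟨fun _ => ⟨[], good_nil trivial⟩, fun _ => rfl⟩
  | dia φ ih =>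
    rw [val, ih]
    constructor
    · rintro ⟨p, ⟨ψ, h1, h2⟩, h3⟩
      refine ⟨0 :: p, ⟨ψ, by simp [subAt, h1], h2⟩, ?_⟩
      intro q χ hq i k ht hp
      cases q with
      | nil =>
        rw [show subAt (Fml.dia φ) [] = some (Fml.dia φ) from rfl] at hq
        cases hq
        cases ht
      | cons m q =>
        rw [List.cons_append, List.cons_prefix_cons] at hp
        obtain ⟨rfl, hp⟩ := hp
        simp only [subAt, if_true] at hq
        exact h3 q χ hq i k ht hp
    · rintro ⟨p, ⟨ψ, h1, h2⟩, h3⟩
      cases p with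
      | nil =>
        rw [show subAt (Fml.dia φ) [] = some (Fml.dia φ) from rfl] at h1
        cases h1
        exact absurd h2 (by simp [top, PosLab])
      | cons m p =>
        by_cases hm : m = 0
        · subst hm
          simp only [subAt, if_true] at h1
          refine ⟨p, ⟨ψ, h1, h2⟩, ?_⟩
          intro q χ hq i k ht hp
          refine h3 (0 :: q) χ (by simp [subAt, hq]) i k ht ?_
          rw [List.cons_append, List.cons_prefix_cons]
          exact ⟨rfl, hp⟩
        · simp [subAt, hm] at h1
  | down x φ ih =>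
    rw [val, ih]
    constructor
    · rintro ⟨p, ⟨ψ, h1, h2⟩, h3⟩
      refine ⟨0 :: p, ⟨ψ, by simp [subAt, h1], h2⟩, ?_⟩
      intro q χ hq i k ht hp
      cases q with
      | nil =>
        rw [show subAt (Fml.down x φ) [] = some (Fml.down x φ) from rfl] at hq
        cases hq
        cases ht
      | cons m q =>
        rw [List.cons_append, List.cons_prefix_cons] at hp
        obtain ⟨rfl, hp⟩ := hp
        simp only [subAt, if_true] at hq
        exact h3 q χ hq i k ht hp
    · rintro ⟨p, ⟨ψ, h1, h2⟩, h3⟩
      cases p with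
      | nil =>
        rw [show subAt (Fml.down x φ) [] = some (Fml.down x φ) from rfl] at h1
        cases h1
        exact absurd h2 (by simp [top, PosLab])
      | cons m p =>
        by_cases hm : m = 0
        · subst hm
          simp only [subAt, if_true] at h1
          refine ⟨p, ⟨ψ, h1, h2⟩, ?_⟩
          intro q χ hq i k ht hp
          refine h3 (0 :: q) χ (by simp [subAt, hq]) i k ht ?_
          rw [List.cons_append, List.cons_prefix_cons]
          exact ⟨rfl, hp⟩
        · simp [subAt, hm] at h1
  | app i a ih =>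
    rw [val, hB i]
    constructor
    · rintro (h | ⟨j, h, hj⟩)
      · exact ⟨[], good_nil h⟩
      · obtain ⟨p, ⟨ψ, h1, h2⟩, h3⟩ := (ih j).1 h
        refine ⟨j.1 :: p, ⟨ψ, by simp [subAt, h1], h2⟩, ?_⟩
        intro q χ hq i' k ht hp
        cases q with
        | nil =>
          rw [show subAt (Fml.app i a) [] = some (Fml.app i a) from rfl] at hq
          cases hq
          cases ht
          rw [List.nil_append, List.cons_prefix_cons] at hp
          rw [show k = j from Fin.ext hp.1]
          exact hj
        | cons m q =>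
          rw [List.cons_append, List.cons_prefix_cons] at hp
          obtain ⟨rfl, hp⟩ := hp
          simp only [subAt, Fin.is_lt, dif_pos, Fin.eta] at hq
          exact h3 q χ hq i' k ht hp
    · rintro ⟨p, ⟨ψ, h1, h2⟩, h3⟩
      cases p with
      | nil =>
        rw [show subAt (Fml.app i a) [] = some (Fml.app i a) from rfl] at h1
        cases h1
        exact Or.inl h2
      | cons m p =>
        by_cases hm : m < B.ar i
        · simp only [subAt, dif_pos hm] at h1
          refine Or.inr ⟨⟨m, hm⟩, (ih _).2 ⟨p, ⟨ψ, h1, h2⟩, ?_⟩, ?_⟩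
          · intro q χ hq i' k ht hp
            refine h3 (m :: q) χ (by simp [subAt, hq, hm]) i' k ht ?_
            rw [List.cons_append, List.cons_prefix_cons]
            exact ⟨rfl, hp⟩
          · refine h3 [] _ rfl i ⟨m, hm⟩ rfl ?_
            rw [List.nil_append, List.cons_prefix_cons]
            exact ⟨rfl, List.nil_prefix⟩
        · simp [subAt, hm] at h1

/-- The condition on labelled trees. -/
def TreeCond {B : Base} (φ : Fml B) : Prop :=
  ∃ v : Occ φ, PosLab (label v) ∧ ∀ u : Occ φ, ∀ i (k : Fin (B.ar i)),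
    B.fn i (single k) = false → ¬ (label u = .fn i ∧ Below k.1 u v)

theorem treeCond_iff {B : Base} (hB : ∀ i, Disj (B.fn i)) (φ : Fml B) :
    val φ = true ↔ TreeCond φ := by
  rw [good_iff hB]
  constructor
  · rintro ⟨p, ⟨ψ, h1, h2⟩, h3⟩
    refine ⟨⟨p, by rw [h1]; rfl⟩, ?_, ?_⟩
    · rw [label]
      simpa [h1] using h2
    · rintro ⟨q, hq⟩ i k hk ⟨h4, h5⟩
      obtain ⟨χ, hχ⟩ := Option.isSome_iff_exists.1 hq
      have := h3 q χ hχ i k (by rw [← h4, label]; simp [hχ]) h5
      rw [hk] at this
      exact absurd this (by simp)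
  · rintro ⟨⟨p, hp⟩, h2, h3⟩
    obtain ⟨ψ, hψ⟩ := Option.isSome_iff_exists.1 hp
    refine ⟨p, ⟨ψ, hψ, ?_⟩, ?_⟩
    · rw [label] at h2
      simpa [hψ] using h2
    · intro q χ hq i k ht hqp
      by_contra hk
      refine h3 ⟨q, by rw [hq]; rfl⟩ i k (by simpa using hk) ⟨?_, hqp⟩
      rw [label, ← ht]
      simp [hq]

/-- the pairs consisting of a function and one of its inessential arguments -/
def Iness (B : Base) : Type := {x : Σ i : B.ι, Fin (B.ar i) // B.fn x.1 (single x.2) = false}

instance {B : Base} : Finite (Iness B) := by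
  unfold Iness
  infer_instance

/-- the sentence for labelled trees -/
noncomputable def treeSentence (B : Base) : (treeLang B).Sentence :=
  ((Language.BoundedFormula.iSup (fun a : {a : Lab B // PosLab a} =>
      Language.Relations.boundedFormula₁ (L := treeLang B) (TreeRel.lab a.1)
        (Language.Term.var (Sum.inr (0 : Fin 1))))) ⊓
    (Language.BoundedFormula.all (Language.BoundedFormula.iInf (fun x : Iness B =>
      ∼((Language.Relations.boundedFormula₁ (L := treeLang B) (TreeRel.lab (.fn x.1.1))
          (Language.Term.var (Sum.inr (1 : Fin 2)))) ⊓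
        (Language.Relations.boundedFormula₂ (L := treeLang B) (TreeRel.below x.1.2.1)
          (Language.Term.var (Sum.inr (1 : Fin 2)))
          (Language.Term.var (Sum.inr (0 : Fin 2))))))))).ex

theorem treeSentence_iff {B : Base} (φ : Fml B) :
    Language.Sentence.Realize (Occ φ) (treeSentence B) ↔ TreeCond φ := by
  unfold treeSentence TreeCond
  rw [Language.Sentence.Realize, Language.Formula.Realize, Language.BoundedFormula.realize_ex]
  refine exists_congr fun v => ?_
  rw [Language.BoundedFormula.realize_inf, Language.BoundedFormula.realize_iSup,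
    Language.BoundedFormula.realize_all]
  refine and_congr ?_ (forall_congr' fun u => ?_)
  · constructor
    · rintro ⟨⟨a, ha⟩, h⟩
      rw [Language.BoundedFormula.realize_rel₁] at h
      change label v = a at h
      rw [h]
      exact ha
    · intro h
      refine ⟨⟨label v, h⟩, ?_⟩
      rw [Language.BoundedFormula.realize_rel₁]
      change label v = label v
      rfl
  · rw [Language.BoundedFormula.realize_iInf]
    constructor
    · intro h i k hk
      have h1 := h ⟨⟨i, k⟩, hk⟩
      rw [Language.BoundedFormula.realize_not, Language.BoundedFormula.realize_inf,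
        Language.BoundedFormula.realize_rel₁, Language.BoundedFormula.realize_rel₂] at h1
      exact h1
    · rintro h ⟨⟨i, k⟩, hk⟩
      rw [Language.BoundedFormula.realize_not, Language.BoundedFormula.realize_inf,
        Language.BoundedFormula.realize_rel₁, Language.BoundedFormula.realize_rel₂]
      exact h i k hk

/-! ### Circuits -/

/-- conjunction over a finite type -/
noncomputable def allOf {I α : Type} [Finite α] (c : α → Circuit I) : Circuit I :=
  .all (Nat.card α) (fun j => c ((Finite.equivFin α).symm j))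

/-- disjunction over a finite type -/
noncomputable def anyOf {I α : Type} [Finite α] (c : α → Circuit I) : Circuit I :=
  .any (Nat.card α) (fun j => c ((Finite.equivFin α).symm j))

theorem eval_allOf {I α : Type} [Finite α] (c : α → Circuit I) (x : I → Prop) :
    (allOf c).eval x ↔ ∀ a, (c a).eval x := by
  unfold allOf
  rw [Circuit.eval]
  exact ⟨fun h a => by simpa using h (Finite.equivFin α a), fun h j => h _⟩

theorem eval_anyOf {I α : Type} [Finite α] (c : α → Circuit I) (x : I → Prop) :
    (anyOf c).eval x ↔ ∃ a, (c a).eval x := by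
  unfold anyOf
  rw [Circuit.eval]
  exact ⟨fun ⟨j, h⟩ => ⟨_, h⟩, fun ⟨a, h⟩ => ⟨Finite.equivFin α a, by simpa using h⟩⟩

theorem depth_allOf {I α : Type} [Finite α] {c : α → Circuit I} {d : ℕ}
    (h : ∀ a, (c a).depth ≤ d) : (allOf c).depth ≤ d + 1 := by
  unfold allOf
  rw [Circuit.depth, add_comm]
  exact Nat.add_le_add_right (Finset.sup_le fun j _ => h _) 1

theorem depth_anyOf {I α : Type} [Finite α] {c : α → Circuit I} {d : ℕ}
    (h : ∀ a, (c a).depth ≤ d) : (anyOf c).depth ≤ d + 1 := by
  unfold anyOf
  rw [Circuit.depth, add_comm]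
  exact Nat.add_le_add_right (Finset.sup_le fun j _ => h _) 1

theorem size_allOf {I α : Type} [Finite α] {c : α → Circuit I} {s : ℕ}
    (h : ∀ a, (c a).size ≤ s) : (allOf c).size ≤ Nat.card α * s + 1 := by
  unfold allOf
  rw [Circuit.size, add_comm]
  refine Nat.add_le_add_right ((Finset.sum_le_sum fun j _ => h _).trans ?_) 1
  simp

theorem size_anyOf {I α : Type} [Finite α] {c : α → Circuit I} {s : ℕ}
    (h : ∀ a, (c a).size ≤ s) : (anyOf c).size ≤ Nat.card α * s + 1 := by
  unfold anyOf
  rw [Circuit.size, add_comm]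
  refine Nat.add_le_add_right ((Finset.sum_le_sum fun j _ => h _).trans ?_) 1
  simp

/-- the circuit which finds out whether `v` has a label replaced by `1` -/
noncomputable def posCircuit (B : Base) (m : ℕ) (v : Fin m) : Circuit (TreeIn B m) :=
  anyOf fun a : {a : Lab B // PosLab a} => .lit (.lab v a.1) true

/-- the circuit which finds out whether `v` lies in inessential arguments of `u` -/
noncomputable def nodeCircuit (B : Base) (m : ℕ) (u v : Fin m) : Circuit (TreeIn B m) :=
  allOf fun x : Iness B => anyOf fun b : Bool =>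
    cond b (.lit (.lab u (.fn x.1.1)) false) (.lit (.below x.1.2.1 u v) false)

/-- the circuit for formulas with `m` nodes -/
noncomputable def treeCircuit (B : Base) (m : ℕ) : Circuit (TreeIn B m) :=
  anyOf fun v : Fin m => allOf fun b : Bool =>
    cond b (posCircuit B m v) (allOf fun u : Fin m => nodeCircuit B m u v)

theorem treeCircuit_eval {B : Base} {φ : Fml B} {m : ℕ} (e : Occ φ ≃ Fin m) :
    (treeCircuit B m).eval (treeInput e) ↔ TreeCond φ := by
  unfold treeCircuit TreeCond
  rw [eval_anyOf]
  have hpos : ∀ v : Fin m, (posCircuit B m v).eval (treeInput e) ↔ PosLab (label (e.symm v)) := by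
    intro v
    unfold posCircuit
    rw [eval_anyOf]
    constructor
    · rintro ⟨⟨a, ha⟩, h⟩
      change label (e.symm v) = a at h
      rw [h]
      exact ha
    · intro h
      exact ⟨⟨_, h⟩, rfl⟩
  have hnode : ∀ u v : Fin m, (nodeCircuit B m u v).eval (treeInput e) ↔
      ∀ i (k : Fin (B.ar i)), B.fn i (single k) = false →
        ¬ (label (e.symm u) = .fn i ∧ Below k.1 (e.symm u) (e.symm v)) := by
    intro u v
    unfold nodeCircuit
    rw [eval_allOf]
    have key : ∀ x : Iness B, (anyOf fun b : Bool =>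
        cond b (Circuit.lit (TreeIn.lab (B := B) u (.fn x.1.1)) false)
          (.lit (.below x.1.2.1 u v) false)).eval (treeInput e) ↔
        ¬ (label (e.symm u) = .fn x.1.1 ∧ Below x.1.2.1 (e.symm u) (e.symm v)) := by
      intro x
      rw [eval_anyOf, Bool.exists_bool]
      have h1 : (cond false (Circuit.lit (TreeIn.lab (B := B) u (.fn x.1.1)) false)
          (.lit (.below x.1.2.1 u v) false)).eval (treeInput e) ↔
          ¬ Below x.1.2.1 (e.symm u) (e.symm v) := Iff.rfl
      have h2 : (cond true (Circuit.lit (TreeIn.lab (B := B) u (.fn x.1.1)) false)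
          (.lit (.below x.1.2.1 u v) false)).eval (treeInput e) ↔
          ¬ label (e.symm u) = .fn x.1.1 := Iff.rfl
      rw [h1, h2]
      tauto
    constructor
    · intro h i k hk
      exact (key ⟨⟨i, k⟩, hk⟩).1 (h ⟨⟨i, k⟩, hk⟩)
    · rintro h ⟨⟨i, k⟩, hk⟩
      exact (key ⟨⟨i, k⟩, hk⟩).2 (h i k hk)
  have hb : ∀ v : Fin m, (allOf fun b : Bool =>
      cond b (posCircuit B m v) (allOf fun u : Fin m => nodeCircuit B m u v)).eval (treeInput e) ↔
      (PosLab (label (e.symm v)) ∧ ∀ u : Fin m, ∀ i (k : Fin (B.ar i)),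
        B.fn i (single k) = false →
          ¬ (label (e.symm u) = .fn i ∧ Below k.1 (e.symm u) (e.symm v))) := by
    intro v
    rw [eval_allOf, Bool.forall_bool, cond_false, cond_true, eval_allOf, hpos, and_comm]
    exact and_congr_right fun _ => forall_congr' fun u => hnode u v
  constructor
  · rintro ⟨v, h⟩
    obtain ⟨h1, h2⟩ := (hb v).1 h
    refine ⟨e.symm v, h1, fun u => ?_⟩
    have := h2 (e u)
    rwa [e.symm_apply_apply] at this
  · rintro ⟨v, h1, h2⟩
    refine ⟨e v, (hb _).2 ?_⟩
    rw [e.symm_apply_apply]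
    exact ⟨h1, fun u => h2 _⟩

theorem treeCircuit_small (B : Base) : ConstDepthPolySize (treeCircuit B) := by
  obtain ⟨K, hK⟩ : ∃ K, K = Nat.card {a : Lab B // PosLab a} := ⟨_, rfl⟩
  obtain ⟨J, hJ⟩ : ∃ J, J = Nat.card (Iness B) := ⟨_, rfl⟩
  refine ⟨5, 6 * J + 2 * K + 20, fun m => ⟨?_, ?_⟩⟩
  · unfold treeCircuit
    refine depth_anyOf fun v => depth_allOf fun b => ?_
    cases b
    · change (allOf fun u : Fin m => nodeCircuit B m u v).depth ≤ 2 + 1
      refine depth_allOf (d := 2) fun u => ?_
      unfold nodeCircuit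
      refine depth_allOf (d := 1) fun x => depth_anyOf (d := 0) fun b => ?_
      cases b
      · exact le_rfl
      · exact le_rfl
    · change (posCircuit B m v).depth ≤ 3
      unfold posCircuit
      exact (depth_anyOf (d := 0) fun _ => le_rfl).trans (by norm_num)
  · have h1 : ∀ u v : Fin m, (nodeCircuit B m u v).size ≤ J * 3 + 1 := by
      intro u v
      unfold nodeCircuit
      rw [hJ]
      refine size_allOf fun x => ?_
      refine (size_anyOf (s := 1) fun b => ?_).trans (by simp)
      cases b
      · exact le_rfl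
      · exact le_rfl
    have h2 : ∀ v : Fin m, (posCircuit B m v).size ≤ K + 1 := by
      intro v
      unfold posCircuit
      rw [hK]
      exact (size_anyOf (s := 1) fun _ => le_rfl).trans (by simp)
    have h3 : (treeCircuit B m).size ≤ m * (2 * (m * (J * 3 + 1) + 1 + (K + 1)) + 1) + 1 := by
      unfold treeCircuit
      refine (size_anyOf (s := 2 * (m * (J * 3 + 1) + 1 + (K + 1)) + 1) fun v => ?_).trans
        (by simp)
      refine (size_allOf (s := m * (J * 3 + 1) + 1 + (K + 1)) fun b => ?_).trans (by simp)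
      cases b
      · refine (size_allOf (s := J * 3 + 1) fun u => h1 u v).trans ?_
        simp
      · exact (h2 v).trans (by omega)
    refine h3.trans ?_
    have h4 : m * (2 * (m * (J * 3 + 1) + 1 + (K + 1)) + 1) + 1 ≤
        (6 * J + 2 * K + 20) * (m + 1) ^ 2 := by
      nlinarith [Nat.zero_le (J * m), Nat.zero_le (K * m), Nat.zero_le (K * m * m),
        Nat.zero_le (m * m)]
    refine h4.trans (Nat.mul_le_mul_left _ ?_)
    exact Nat.pow_le_pow_right (by omega) (by omega)

/-! ### Finitely many nodes -/

theorem finite_occ {B : Base} (φ : Fml B) : Finite (Occ φ) := by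
  suffices h : ({p : List ℕ | (subAt φ p).isSome}).Finite from h
  induction φ with
  | atom n =>
    refine (Set.finite_singleton []).subset fun p hp => ?_
    cases p with
    | nil => rfl
    | cons k p => simp [subAt] at hp
  | nom n =>
    refine (Set.finite_singleton []).subset fun p hp => ?_
    cases p with
    | nil => rfl
    | cons k p => simp [subAt] at hp
  | var n =>
    refine (Set.finite_singleton []).subset fun p hp => ?_
    cases p with
    | nil => rfl
    | cons k p => simp [subAt] at hp
  | dia φ ih =>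
    refine ((Set.finite_singleton []).union (ih.image (List.cons 0))).subset fun p hp => ?_
    cases p with
    | nil => exact Or.inl rfl
    | cons k p =>
      by_cases hk : k = 0
      · subst hk
        exact Or.inr ⟨p, by simpa [subAt] using hp, rfl⟩
      · simp [subAt, hk] at hp
  | box φ ih =>
    refine ((Set.finite_singleton []).union (ih.image (List.cons 0))).subset fun p hp => ?_
    cases p with
    | nil => exact Or.inl rfl
    | cons k p =>
      by_cases hk : k = 0
      · subst hk
        exact Or.inr ⟨p, by simpa [subAt] using hp, rfl⟩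
      · simp [subAt, hk] at hp
  | down x φ ih =>
    refine ((Set.finite_singleton []).union (ih.image (List.cons 0))).subset fun p hp => ?_
    cases p with
    | nil => exact Or.inl rfl
    | cons k p =>
      by_cases hk : k = 0
      · subst hk
        exact Or.inr ⟨p, by simpa [subAt] using hp, rfl⟩
      · simp [subAt, hk] at hp
  | app i a ih =>
    refine ((Set.finite_singleton []).union (Set.finite_iUnion fun j : Fin (B.ar i) =>
      (ih j).image (List.cons j.1))).subset fun p hp => ?_
    cases p with
    | nil => exact Or.inl rfl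
    | cons k p =>
      by_cases hk : k < B.ar i
      · refine Or.inr (Set.mem_iUnion.2 ⟨⟨k, hk⟩, p, ?_, rfl⟩)
        simpa [subAt, hk] using hp
      · simp [subAt, hk] at hp

/-! ### Words -/

/-- the letters which are replaced by `1` -/
def PosTok {B : Base} : Tok B → Prop
  | .lab a => PosLab a
  | .bit _ => False

theorem not_pos_bits {B : Base} {n : ℕ} {t : Tok B} (h : t ∈ bits B n) : ¬ PosTok t := by
  unfold bits at h
  obtain ⟨b, -, rfl⟩ := List.mem_map.1 h
  exact id

theorem word_iff {B : Base} (hB : ∀ i, Disj (B.fn i)) (hE : ∀ i k, Essential (B.fn i) k)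
    (φ : Fml B) : val φ = true ↔ ∃ t ∈ word φ, PosTok t := by
  induction φ with
  | atom n => exact ⟨fun _ => ⟨.lab .at, List.mem_cons_self, trivial⟩, fun _ => rfl⟩
  | nom n => exact ⟨fun _ => ⟨.lab .nm, List.mem_cons_self, trivial⟩, fun _ => rfl⟩
  | var n => exact ⟨fun _ => ⟨.lab .vr, List.mem_cons_self, trivial⟩, fun _ => rfl⟩
  | box φ ih => exact ⟨fun _ => ⟨.lab .box, List.mem_cons_self, trivial⟩, fun _ => rfl⟩
  | dia φ ih =>
    rw [val, ih]
    constructor
    · rintro ⟨t, h1, h2⟩
      exact ⟨t, List.mem_cons_of_mem _ h1, h2⟩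
    · rintro ⟨t, h1, h2⟩
      rcases List.mem_cons.1 h1 with rfl | h1
      · exact absurd h2 id
      · exact ⟨t, h1, h2⟩
  | down x φ ih =>
    rw [val, ih]
    constructor
    · rintro ⟨t, h1, h2⟩
      exact ⟨t, List.mem_cons_of_mem _ (List.mem_append_right _ h1), h2⟩
    · rintro ⟨t, h1, h2⟩
      rcases List.mem_cons.1 h1 with rfl | h1
      · exact absurd h2 id
      · rcases List.mem_append.1 h1 with h1 | h1
        · exact absurd h2 (not_pos_bits h1)
        · exact ⟨t, h1, h2⟩
  | app i a ih =>
    rw [val, hB i]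
    constructor
    · rintro (h | ⟨j, h, -⟩)
      · exact ⟨.lab (.fn i), List.mem_cons_self, h⟩
      · obtain ⟨t, h1, h2⟩ := (ih j).1 h
        refine ⟨t, List.mem_cons_of_mem _ (List.mem_flatten.2 ⟨_, ?_, h1⟩), h2⟩
        exact List.mem_ofFn.2 ⟨j, rfl⟩
    · rintro ⟨t, h1, h2⟩
      rcases List.mem_cons.1 h1 with rfl | h1
      · exact Or.inl h2
      · obtain ⟨l, hl, h1⟩ := List.mem_flatten.1 h1
        obtain ⟨j, rfl⟩ := List.mem_ofFn.1 hl
        exact Or.inr ⟨j, (ih j).2 ⟨t, h1, h2⟩, (hB i).single (hE i j)⟩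

instance {B : Base} : Finite (Tok B) :=
  Finite.of_surjective (fun x : Lab B ⊕ Bool => match x with
    | .inl a => Tok.lab a
    | .inr b => Tok.bit b) (fun t => by
      cases t
      · exact ⟨.inl _, rfl⟩
      · exact ⟨.inr _, rfl⟩)

/-- the sentence for words -/
noncomputable def wordSentence (B : Base) : (wordLang B).Sentence :=
  (Language.BoundedFormula.iSup (fun a : {a : Tok B // PosTok a} =>
      Language.Relations.boundedFormula₁ (L := wordLang B) (WordRel.letter a.1)
        (Language.Term.var (Sum.inr (0 : Fin 1))))).ex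

theorem wordSentence_iff {B : Base} (w : List (Tok B)) :
    Language.Sentence.Realize (Pos w) (wordSentence B) ↔ ∃ t ∈ w, PosTok t := by
  unfold wordSentence
  rw [Language.Sentence.Realize, Language.Formula.Realize, Language.BoundedFormula.realize_ex]
  constructor
  · rintro ⟨v, h⟩
    rw [Language.BoundedFormula.realize_iSup] at h
    obtain ⟨⟨a, ha⟩, h⟩ := h
    rw [Language.BoundedFormula.realize_rel₁] at h
    change w.get v = a at h
    exact ⟨a, h ▸ List.get_mem _ _, ha⟩
  · rintro ⟨t, h, ht⟩
    obtain ⟨v, rfl⟩ := List.mem_iff_get.1 h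
    refine ⟨v, ?_⟩
    rw [Language.BoundedFormula.realize_iSup]
    refine ⟨⟨_, ht⟩, ?_⟩
    rw [Language.BoundedFormula.realize_rel₁]
    change w.get v = w.get v
    rfl

/-- The input which presents the word `w` of length `n`. -/
def wordInput {B : Base} (w : List (Tok B)) : Fin w.length × Tok B → Prop :=
  fun x => w.get x.1 = x.2

/-- the circuit for words of length `n` -/
noncomputable def wordCircuit (B : Base) (n : ℕ) : Circuit (Fin n × Tok B) :=
  anyOf fun x : Fin n × {a : Tok B // PosTok a} => .lit (x.1, x.2.1) true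

theorem wordCircuit_eval {B : Base} (w : List (Tok B)) :
    (wordCircuit B w.length).eval (wordInput w) ↔ ∃ t ∈ w, PosTok t := by
  unfold wordCircuit
  rw [eval_anyOf]
  constructor
  · rintro ⟨⟨p, a, ha⟩, h⟩
    change w.get p = a at h
    exact ⟨a, h ▸ List.get_mem _ _, ha⟩
  · rintro ⟨t, h, ht⟩
    obtain ⟨v, rfl⟩ := List.mem_iff_get.1 h
    exact ⟨(v, ⟨_, ht⟩), rfl⟩

theorem wordCircuit_small (B : Base) : ConstDepthPolySize (wordCircuit B) := by
  refine ⟨1, Nat.card {a : Tok B // PosTok a} + 2, fun n => ⟨?_, ?_⟩⟩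
  · unfold wordCircuit
    exact depth_anyOf (d := 0) fun _ => le_rfl
  · unfold wordCircuit
    refine (size_anyOf (s := 1) fun _ => le_rfl).trans ?_
    obtain ⟨K, hK⟩ : ∃ K, K = Nat.card {a : Tok B // PosTok a} := ⟨_, rfl⟩
    rw [Nat.card_prod, ← hK, Nat.card_fin]
    calc n * K * 1 + 1 ≤ (K + 2) * (n + 1) ^ 1 := by nlinarith
      _ ≤ (K + 2) * (n + 1) ^ (K + 2) :=
          Nat.mul_le_mul_left _ (Nat.pow_le_pow_right (by omega) (by omega))

/-- the word does not begin with a binary digit -/
def NB {B : Base} (l : List (Tok B)) : Prop := ∀ b l', l ≠ Tok.bit b :: l'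

theorem map_bit_inj {B : Base} : ∀ (a b : List Bool) (s t : List (Tok B)), NB s → NB t →
    a.map Tok.bit ++ s = b.map Tok.bit ++ t → a = b ∧ s = t
  | [], [], s, t, _, _, h => ⟨rfl, h⟩
  | [], b :: bs, s, t, hs, _, h => absurd h (hs _ _)
  | a :: as, [], s, t, _, ht, h => absurd h.symm (ht _ _)
  | a :: as, b :: bs, s, t, hs, ht, h => by
      simp only [List.map_cons, List.cons_append, List.cons.injEq, Tok.bit.injEq] at h
      obtain ⟨h1, h2⟩ := map_bit_inj as bs s t hs ht h.2
      exact ⟨by rw [h.1, h1], h2⟩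

theorem bits_inj {B : Base} {m n : ℕ} {s t : List (Tok B)} (hs : NB s) (ht : NB t)
    (h : bits B m ++ s = bits B n ++ t) : m = n ∧ s = t := by
  obtain ⟨h1, h2⟩ := map_bit_inj _ _ s t hs ht h
  refine ⟨?_, h2⟩
  have h3 : Nat.digits 2 m = Nat.digits 2 n := by
    rw [Nat.digits_two_eq_bits, Nat.digits_two_eq_bits, h1]
  exact Nat.digits_inj_iff.1 h3

theorem word_nb {B : Base} (φ : Fml B) (s : List (Tok B)) : NB (word φ ++ s) := by
  intro b l'
  cases φ <;> simp [word]

theorem flatten_inj {B : Base} : ∀ (n : ℕ) (a b : Fin n → Fml B) (s t : List (Tok B)),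
    (∀ j, ∀ ψ s t, NB s → NB t → word (a j) ++ s = word ψ ++ t → a j = ψ ∧ s = t) →
    NB s → NB t →
    (List.ofFn fun j => word (a j)).flatten ++ s = (List.ofFn fun j => word (b j)).flatten ++ t →
    a = b ∧ s = t
  | 0, a, b, s, t, _, _, _, h => by
      refine ⟨funext fun j => j.elim0, ?_⟩
      simpa using h
  | n + 1, a, b, s, t, ih, hs, ht, h => by
      rw [List.ofFn_succ, List.ofFn_succ, List.flatten_cons, List.flatten_cons,
        List.append_assoc, List.append_assoc] at h
      have hnb : ∀ (c : Fin n → Fml B) (s : List (Tok B)), NB s →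
          NB ((List.ofFn fun j => word (c j)).flatten ++ s) := by
        intro c s hs
        cases n with
        | zero => simpa using hs
        | succ n =>
          rw [List.ofFn_succ, List.flatten_cons, List.append_assoc]
          exact word_nb _ _
      obtain ⟨h1, h2⟩ := ih 0 _ _ _ (hnb _ _ hs) (hnb _ _ ht) h
      obtain ⟨h3, h4⟩ := flatten_inj n (fun j => a j.succ) (fun j => b j.succ) s t
        (fun j => ih j.succ) hs ht h2
      refine ⟨funext fun j => ?_, h4⟩
      refine Fin.cases h1 (fun j => ?_) j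
      exact congrFun h3 j

theorem word_inj_aux {B : Base} (φ : Fml B) : ∀ (ψ : Fml B) (s t : List (Tok B)),
    NB s → NB t → word φ ++ s = word ψ ++ t → φ = ψ ∧ s = t := by
  induction φ with
  | atom n =>
    intro ψ s t hs ht h
    cases ψ <;> simp only [word, List.cons_append, List.cons.injEq, Tok.lab.injEq, reduceCtorEq,
      false_and] at h
    obtain ⟨h1, h2⟩ := bits_inj hs ht h.2
    exact ⟨by rw [h1], h2⟩
  | nom n =>
    intro ψ s t hs ht h
    cases ψ <;> simp only [word, List.cons_append, List.cons.injEq, Tok.lab.injEq, reduceCtorEq,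
      false_and] at h
    obtain ⟨h1, h2⟩ := bits_inj hs ht h.2
    exact ⟨by rw [h1], h2⟩
  | var n =>
    intro ψ s t hs ht h
    cases ψ <;> simp only [word, List.cons_append, List.cons.injEq, Tok.lab.injEq, reduceCtorEq,
      false_and] at h
    obtain ⟨h1, h2⟩ := bits_inj hs ht h.2
    exact ⟨by rw [h1], h2⟩
  | dia φ ih =>
    intro ψ s t hs ht h
    cases ψ <;> simp only [word, List.cons_append, List.cons.injEq, Tok.lab.injEq, reduceCtorEq,
      false_and] at h
    obtain ⟨h1, h2⟩ := ih _ _ _ hs ht h.2
    exact ⟨by rw [h1], h2⟩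
  | box φ ih =>
    intro ψ s t hs ht h
    cases ψ <;> simp only [word, List.cons_append, List.cons.injEq, Tok.lab.injEq, reduceCtorEq,
      false_and] at h
    obtain ⟨h1, h2⟩ := ih _ _ _ hs ht h.2
    exact ⟨by rw [h1], h2⟩
  | down x φ ih =>
    intro ψ s t hs ht h
    cases ψ <;> simp only [word, List.cons_append, List.cons.injEq, Tok.lab.injEq, reduceCtorEq,
      false_and, List.append_assoc] at h
    obtain ⟨h1, h2⟩ := bits_inj (word_nb _ _) (word_nb _ _) h.2
    obtain ⟨h3, h4⟩ := ih _ _ _ hs ht h2
    exact ⟨by rw [h1, h3], h4⟩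
  | app i a ih =>
    intro ψ s t hs ht h
    cases ψ with
    | app i' a' =>
      simp only [word, List.cons_append, List.cons.injEq, Tok.lab.injEq, Lab.fn.injEq] at h
      obtain ⟨rfl, h⟩ := h
      obtain ⟨h1, h2⟩ := flatten_inj _ a a' s t ih hs ht h
      exact ⟨by rw [h1], h2⟩
    | _ =>
      simp only [word, List.cons_append, List.cons.injEq, Tok.lab.injEq, reduceCtorEq,
        false_and] at h

theorem word_injective {B : Base} : Function.Injective (word (B := B)) := by
  intro φ ψ h
  have hnil : NB ([] : List (Tok B)) := fun b l' => by simp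
  exact (word_inj_aux φ ψ [] [] hnil hnil (by rw [h])).1

end Pool.Agent.K7.H42.HL
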